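import Pool.Agent.Helper26.DZDefs

/-!
# Packet D for MP_8199af_an: the data in the left half plane
-/

open Complex Metric Set Filter Topology

namespace Pool.Agent.Helper51.DZ

open Pool.Agent.Helper26.DZ

theorem summable_poly_geom (p : ℕ) {x : ℝ} (hx0 : 0 < x) (hx1 : x < 1) :
    Summable (fun n : ℕ => ((n : ℝ) + 1) ^ p * x ^ n) := by
  have h := summable_pow_mul_geometric_of_norm_lt_one (R := ℝ) p (r := x)
    (by rw [Real.norm_of_nonneg hx0.le]; exact hx1)
  have h2 := (summable_nat_add_iff 1).2 h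
  have h3 := h2.mul_left (x⁻¹)
  refine h3.congr fun n => ?_
  push_cast
  rw [pow_succ x n]
  field_simp

/-- Power series with coefficients of polynomial times exponential decay. -/
theorem ps_deriv {a : ℕ → ℂ} {C r ρ : ℝ} (p : ℕ) (hC : 0 ≤ C) (hr0 : 0 < r) (hρ1 : 1 ≤ ρ)
    (hrρ : r * ρ < 1) (ha : ∀ n, ‖a n‖ ≤ C * ((n : ℝ) + 1) ^ p * r ^ n) {z : ℂ}
    (hz : z ∈ ball (0 : ℂ) ρ) :
    HasDerivAt (fun z => ∑' n : ℕ, a n * z ^ n) (∑' n : ℕ, a n * ((n : ℂ) * z ^ (n - 1))) z := by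
  have hρ0 : 0 < ρ := by linarith
  have hx0 : 0 < r * ρ := by positivity
  have hs := (summable_poly_geom (p + 1) hx0 hrρ).mul_left C
  have hpre : IsPreconnected (ball (0 : ℂ) ρ) := (convex_ball (0 : ℂ) ρ).isPreconnected
  refine hasDerivAt_tsum_of_isPreconnected (𝕜 := ℂ) (F := ℂ) (u := fun n : ℕ =>
    C * (((n : ℝ) + 1) ^ (p + 1) * (r * ρ) ^ n)) (g := fun (n : ℕ) (z : ℂ) => a n * z ^ n)
    (g' := fun (n : ℕ) (z : ℂ) => a n * ((n : ℂ) * z ^ (n - 1))) (t := ball (0 : ℂ) ρ)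
    hs isOpen_ball hpre (y₀ := (0 : ℂ)) ?_ ?_ ?_ ?_ hz
  · intro n y _
    have := (hasDerivAt_pow n y).const_mul (a n)
    simpa using this
  · intro n y hy
    have hy' : ‖y‖ < ρ := by simpa using hy
    rw [norm_mul, norm_mul, norm_pow, Complex.norm_natCast]
    have h1 : ‖y‖ ^ (n - 1) ≤ ρ ^ n := by
      calc ‖y‖ ^ (n - 1) ≤ ρ ^ (n - 1) := by gcongr
        _ ≤ ρ ^ n := pow_le_pow_right₀ hρ1 (Nat.sub_le _ _)
    calc ‖a n‖ * ((n : ℝ) * ‖y‖ ^ (n - 1))
        ≤ (C * ((n : ℝ) + 1) ^ p * r ^ n) * (((n : ℝ) + 1) * ρ ^ n) := by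
          gcongr
          · exact ha n
          · linarith
      _ = C * (((n : ℝ) + 1) ^ (p + 1) * (r * ρ) ^ n) := by rw [mul_pow, pow_succ]; ring
  · simpa using hρ0
  · apply summable_of_ne_finset_zero (s := {0})
    intro n hn
    have : n ≠ 0 := by simpa using hn
    simp [this]

theorem ps_summable {a : ℕ → ℂ} {C r ρ : ℝ} (p : ℕ) (hr0 : 0 < r) (hρ1 : 1 ≤ ρ)
    (hrρ : r * ρ < 1) (ha : ∀ n, ‖a n‖ ≤ C * ((n : ℝ) + 1) ^ p * r ^ n) {z : ℂ}
    (hz : z ∈ ball (0 : ℂ) ρ) : Summable (fun n : ℕ => a n * z ^ n) := by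
  have hρ0 : 0 < ρ := by linarith
  have hx0 : 0 < r * ρ := by positivity
  have hs := (summable_poly_geom p hx0 hrρ).mul_left C
  refine Summable.of_norm_bounded hs fun n => ?_
  have hz' : ‖z‖ < ρ := by simpa using hz
  rw [norm_mul, norm_pow]
  calc ‖a n‖ * ‖z‖ ^ n ≤ (C * ((n : ℝ) + 1) ^ p * r ^ n) * ρ ^ n := by
        have h0 := (norm_nonneg (a n)).trans (ha n)
        gcongr
        exact ha n
    _ = C * (((n : ℝ) + 1) ^ p * (r * ρ) ^ n) := by rw [mul_pow]; ring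

theorem stmtD (hC : StmtC) : StmtD := by
  intro E u hu
  obtain ⟨C, r, hr0, hr1, hd⟩ := hu.decay
  have hE := hu.pos
  have hCn : 0 ≤ C := by
    have := (norm_nonneg _).trans (hd 0)
    simpa using this
  -- radius
  obtain ⟨ρ, hρ1, hρr⟩ : ∃ ρ : ℝ, 1 < ρ ∧ r * ρ < 1 := by
    refine ⟨(1 + 1 / r) / 2, ?_, ?_⟩
    · have : 1 < 1 / r := by rw [lt_div_iff₀ hr0]; linarith
      linarith
    · have : r * ((1 + 1 / r) / 2) = (r + 1) / 2 := by field_simp
      rw [this]; linarith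
  have hball : ∀ z : ℂ, ‖z‖ ≤ 1 → z ∈ ball (0 : ℂ) ρ := by
    intro z hz
    simp only [mem_ball, dist_zero_right]
    linarith
  -- bounds on sh
  have hsh : ∀ n : ℕ, ‖sh u n‖ ≤ (C ^ 2 * (1 - r ^ 2)⁻¹) * r ^ n := by
    intro n
    unfold sh
    have hr2 : r ^ 2 < 1 := by nlinarith
    have hg : HasSum (fun j : ℕ => (C ^ 2 * r ^ n) * (r ^ 2) ^ j)
        ((C ^ 2 * r ^ n) * (1 - r ^ 2)⁻¹) :=
      (hasSum_geometric_of_lt_one (by positivity) hr2).mul_left _
    have := tsum_of_norm_bounded (f := fun j => u (j + n) * (starRingEnd ℂ) (u j)) hg (by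
      intro j
      rw [norm_mul, RCLike.norm_conj]
      calc ‖u (j + n)‖ * ‖u j‖ ≤ (C * r ^ (j + n)) * (C * r ^ j) := by
            gcongr
            · exact hd _
            · exact hd _
        _ = (C ^ 2 * r ^ n) * (r ^ 2) ^ j := by rw [pow_add, ← pow_mul, mul_comm 2 j, pow_mul]; ring)
    calc _ ≤ _ := this
      _ = _ := by ring
  set C' : ℝ := C ^ 2 * (1 - r ^ 2)⁻¹ with hC'
  have hC'0 : 0 ≤ C' := by
    have : 0 < 1 - r ^ 2 := by nlinarith
    positivity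
  -- coefficient bounds
  have bU : ∀ n : ℕ, ‖u n‖ ≤ C * ((n : ℝ) + 1) ^ 0 * r ^ n := by
    intro n; simpa using hd n
  have bA : ∀ n : ℕ, ‖((n : ℂ) + 1) * u n‖ ≤ C * ((n : ℝ) + 1) ^ 1 * r ^ n := by
    intro n
    have h1 : ‖((n : ℂ) + 1)‖ = (n : ℝ) + 1 := by
      have : ((n : ℂ) + 1) = ((n + 1 : ℕ) : ℂ) := by push_cast; ring
      rw [this, Complex.norm_natCast]; push_cast; ring
    rw [norm_mul, h1, pow_one]
    calc ((n : ℝ) + 1) * ‖u n‖ ≤ ((n : ℝ) + 1) * (C * r ^ n) := by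
          gcongr; exact hd n
      _ = _ := by ring
  have bF : ∀ n : ℕ, ‖sh u (n + 1)‖ ≤ C' * ((n : ℝ) + 1) ^ 0 * r ^ n := by
    intro n
    calc ‖sh u (n + 1)‖ ≤ C' * r ^ (n + 1) := hsh _
      _ ≤ C' * r ^ n := mul_le_mul_of_nonneg_left
          (pow_le_pow_of_le_one hr0.le hr1.le (Nat.le_succ n)) hC'0
      _ = _ := by simp
  have bW : ∀ n : ℕ, ‖((n : ℂ) + 1) * sh u (n + 1)‖ ≤ C' * ((n : ℝ) + 1) ^ 1 * r ^ n := by
    intro n
    have h1 : ‖((n : ℂ) + 1)‖ = (n : ℝ) + 1 := by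
      have : ((n : ℂ) + 1) = ((n + 1 : ℕ) : ℂ) := by push_cast; ring
      rw [this, Complex.norm_natCast]; push_cast; ring
    rw [norm_mul, h1, pow_one]
    have := bF n
    calc ((n : ℝ) + 1) * ‖sh u (n + 1)‖ ≤ ((n : ℝ) + 1) * (C' * r ^ n) := by
          gcongr
          simpa using this
      _ = _ := by ring
  -- derivative of UU
  have dU : ∀ z ∈ ball (0 : ℂ) ρ, HasDerivAt (UU u) (∑' n : ℕ, u n * ((n : ℂ) * z ^ (n - 1))) z :=
    fun z hz => ps_deriv 0 hCn hr0 hρ1.le hρr bU hz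
  have eU : ∀ z ∈ ball (0 : ℂ) ρ, z * (∑' n : ℕ, u n * ((n : ℂ) * z ^ (n - 1))) = AA u z - UU u z := by
    intro z hz
    have s1 : Summable (fun n : ℕ => u n * z ^ n) := ps_summable 0 hr0 hρ1.le hρr bU hz
    have s2 : Summable (fun n : ℕ => (((n : ℂ) + 1) * u n) * z ^ n) :=
      ps_summable 1 hr0 hρ1.le hρr bA hz
    unfold AA UU
    rw [← s2.tsum_sub s1, ← tsum_mul_left]
    congr 1
    funext n
    rcases n with _ | n
    · simp
    · simp only [Nat.succ_sub_one, Nat.cast_succ]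
      rw [pow_succ]
      ring
  -- differentiability of AA
  have dA : ∀ z ∈ ball (0 : ℂ) ρ, DifferentiableAt ℂ (AA u) z := by
    intro z hz
    have := (ps_deriv 1 hCn hr0 hρ1.le hρr bA hz).differentiableAt
    exact this
  -- FF
  have fFF : FF u = fun z => z * ∑' n : ℕ, sh u (n + 1) * z ^ n := by
    funext z
    unfold FF
    rw [← tsum_mul_left]
    congr 1
    funext n
    rw [pow_succ]; ring
  have fWW : WW E u = fun z => (E : ℂ) - z * ∑' n : ℕ, (((n : ℂ) + 1) * sh u (n + 1)) * z ^ n := by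
    funext z
    unfold WW
    rw [← tsum_mul_left]
    congr 2
    funext n
    rw [pow_succ]; ring
  have dF : ∀ z ∈ ball (0 : ℂ) ρ, ∃ f' : ℂ, HasDerivAt (FF u) f' z ∧ z * f' = E - WW E u z := by
    intro z hz
    have h1 := ps_deriv 0 hC'0 hr0 hρ1.le hρr bF hz
    have h2 := (hasDerivAt_id z).mul h1
    refine ⟨1 * (∑' n : ℕ, sh u (n + 1) * z ^ n) +
      z * (∑' n : ℕ, sh u (n + 1) * ((n : ℂ) * z ^ (n - 1))), ?_, ?_⟩
    · rw [fFF]; exact h2
    · rw [fWW]
      have s1 : Summable (fun n : ℕ => sh u (n + 1) * z ^ n) := ps_summable 0 hr0 hρ1.le hρr bF hz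
      have s2 : Summable (fun n : ℕ => (((n : ℂ) + 1) * sh u (n + 1)) * z ^ n) :=
        ps_summable 1 hr0 hρ1.le hρr bW hz
      have h3 : z * (∑' n : ℕ, sh u (n + 1) * ((n : ℂ) * z ^ (n - 1)))
          = (∑' n : ℕ, (((n : ℂ) + 1) * sh u (n + 1)) * z ^ n) - ∑' n : ℕ, sh u (n + 1) * z ^ n := by
        rw [← s2.tsum_sub s1, ← tsum_mul_left]
        congr 1
        funext n
        rcases n with _ | n
        · simp
        · simp only [Nat.succ_sub_one, Nat.cast_succ]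
          rw [pow_succ]
          ring
      rw [one_mul, h3]
      ring
  have dW : ∀ z ∈ ball (0 : ℂ) ρ, DifferentiableAt ℂ (WW E u) z := by
    intro z hz
    rw [fWW]
    have h1 := ps_deriv 1 hC'0 hr0 hρ1.le hρr bW hz
    exact ((differentiableAt_const _).sub (differentiableAt_id.mul h1.differentiableAt))
  have hexp : ∀ ξ : ℂ, ξ.re ≤ 0 → ‖exp ξ‖ ≤ 1 := by
    intro ξ hξ
    rw [Complex.norm_exp]
    exact Real.exp_le_one_iff.2 hξ
  -- derivatives of Phi and hh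
  have dPhi : ∀ ξ : ℂ, ξ.re ≤ 0 → HasDerivAt (Phi E u) (2 * WW E u (exp ξ)) ξ := by
    intro ξ hξ
    obtain ⟨f', hf', hf''⟩ := dF _ (hball _ (hexp ξ hξ))
    have h1 : HasDerivAt (fun ξ => FF u (exp ξ)) (f' * exp ξ) ξ :=
      HasDerivAt.comp ξ hf' (Complex.hasDerivAt_exp ξ)
    have h2 : HasDerivAt (fun ξ : ℂ => 2 * (E : ℂ) * ξ - sh u 0 - 2 * FF u (exp ξ))
        (2 * (E : ℂ) * 1 - 2 * (f' * exp ξ)) ξ :=
      (((hasDerivAt_id ξ).const_mul (2 * (E : ℂ))).sub_const (sh u 0)).sub (h1.const_mul 2)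
    have h3 : 2 * (E : ℂ) * 1 - 2 * (f' * exp ξ) = 2 * WW E u (exp ξ) := by
      have : f' * exp ξ = E - WW E u (exp ξ) := by rw [← hf'']; ring
      rw [this]; ring
    rw [h3] at h2
    exact h2
  have dhh : ∀ ξ : ℂ, ξ.re ≤ 0 → HasDerivAt (hh u)
      (exp ξ * UU u (exp ξ) * (2 * AA u (exp ξ) - UU u (exp ξ))) ξ := by
    intro ξ hξ
    have hb := hball _ (hexp ξ hξ)
    have h0 := dU _ hb
    have he := eU _ hb
    set U' := ∑' n : ℕ, u n * ((n : ℂ) * (exp ξ) ^ (n - 1)) with hU'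
    have h1 : HasDerivAt (fun ξ => UU u (exp ξ)) (U' * exp ξ) ξ :=
      HasDerivAt.comp ξ h0 (Complex.hasDerivAt_exp ξ)
    have h2 := (Complex.hasDerivAt_exp ξ).mul (h1.pow 2)
    have h3 : exp ξ * UU u (exp ξ) ^ 2 + exp ξ * ((2 : ℕ) * UU u (exp ξ) ^ (2 - 1) * (U' * exp ξ))
        = exp ξ * UU u (exp ξ) * (2 * AA u (exp ξ) - UU u (exp ξ)) := by
      have : AA u (exp ξ) = exp ξ * U' + UU u (exp ξ) := by rw [he]; ring
      rw [this]
      push_cast
      ring
    have h4 : HasDerivAt (hh u)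
        (exp ξ * UU u (exp ξ) ^ 2 + exp ξ * ((2 : ℕ) * UU u (exp ξ) ^ (2 - 1) * (U' * exp ξ))) ξ :=
      h2
    rw [h3] at h4
    exact h4
  -- circle facts
  have circ := hC E u hu
  have hWre : ∀ ζ : ℂ, ‖ζ‖ = 1 → (E + ‖UU u ζ‖ ^ 2) / 2 ≤ (WW E u ζ).re := by
    intro ζ hζ
    obtain ⟨_, h2, h3⟩ := circ ζ hζ
    rw [h2]; linarith
  have hU0 : ∀ ζ : ℂ, ‖ζ‖ = 1 → UU u ζ ≠ 0 := by
    intro ζ hζ h0
    obtain ⟨_, h2, h3⟩ := circ ζ hζ
    rw [h0] at h3
    simp at h3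
    linarith
  have hcl : closure (ball (0 : ℂ) 1) = closedBall 0 1 := closure_ball _ one_ne_zero
  have hfr : frontier (ball (0 : ℂ) 1) = sphere 0 1 := frontier_ball _ one_ne_zero
  -- Re WW ≥ E / 2 in the disc
  have hW : ∀ z : ℂ, ‖z‖ ≤ 1 → E / 2 ≤ (WW E u z).re := by
    intro z hz
    have hdc : DiffContOnCl ℂ (fun z => exp (-(WW E u z))) (ball (0 : ℂ) 1) := by
      apply DifferentiableOn.diffContOnCl
      rw [hcl]
      intro w hw
      have hw' : ‖w‖ ≤ 1 := by simpa using hw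
      exact ((dW w (hball w hw')).neg.cexp).differentiableWithinAt
    have := Complex.norm_le_of_forall_mem_frontier_norm_le isBounded_ball hdc
      (C := Real.exp (-(E / 2))) (by
        intro w hw
        rw [hfr] at hw
        have hw' : ‖w‖ = 1 := by simpa using hw
        rw [Complex.norm_exp]
        apply Real.exp_le_exp.2
        have := hWre w hw'
        have h0 : 0 ≤ ‖UU u w‖ ^ 2 := by positivity
        simp only [neg_re]
        linarith) (z := z) (by rw [hcl]; simpa using hz)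
    rw [Complex.norm_exp] at this
    have := Real.exp_le_exp.1 this
    simp only [neg_re] at this
    linarith
  have hW0 : ∀ z : ℂ, ‖z‖ ≤ 1 → WW E u z ≠ 0 := by
    intro z hz h0
    have := hW z hz
    rw [h0] at this
    simp at this
    linarith
  -- the inequality of the derivatives
  have hle : ∀ z : ℂ, ‖z‖ ≤ 1 → ‖z * UU u z * (2 * AA u z - UU u z)‖ ≤ ‖2 * WW E u z‖ := by
    intro z hz
    have hdc : DiffContOnCl ℂ (fun z => (z * UU u z * (2 * AA u z - UU u z)) / (2 * WW E u z))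
        (ball (0 : ℂ) 1) := by
      apply DifferentiableOn.diffContOnCl
      rw [hcl]
      intro w hw
      have hw' : ‖w‖ ≤ 1 := by simpa using hw
      have hb := hball w hw'
      apply DifferentiableAt.differentiableWithinAt
      apply DifferentiableAt.div
      · exact (differentiableAt_id.mul (dU w hb).differentiableAt).mul
          (((dA w hb).const_mul 2).sub (dU w hb).differentiableAt)
      · exact (dW w hb).const_mul 2
      · exact mul_ne_zero two_ne_zero (hW0 w hw')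
    have := Complex.norm_le_of_forall_mem_frontier_norm_le isBounded_ball hdc (C := 1) (by
        intro w hw
        rw [hfr] at hw
        have hw' : ‖w‖ = 1 := by simpa using hw
        rw [norm_div]
        have hpos : 0 < ‖2 * WW E u w‖ :=
          norm_pos_iff.2 (mul_ne_zero two_ne_zero (hW0 w hw'.le))
        rw [div_le_one hpos]
        obtain ⟨_, h2, h3⟩ := circ w hw'
        rw [h2]
        simp only [norm_mul, RCLike.norm_conj, hw', one_mul]
        have h4 : ‖2 * AA u w - UU u w‖ ≤ 2 * ‖AA u w‖ := by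
          have h5 : ‖2 * AA u w - UU u w‖ ^ 2 ≤ (2 * ‖AA u w‖) ^ 2 := by
            have e1 : ‖2 * AA u w - UU u w‖ ^ 2 = 4 * ‖AA u w‖ ^ 2 + ‖UU u w‖ ^ 2
                - 4 * (UU u w * (starRingEnd ℂ) (AA u w)).re := by
              rw [← Complex.normSq_eq_norm_sq, ← Complex.normSq_eq_norm_sq,
                ← Complex.normSq_eq_norm_sq]
              simp only [Complex.normSq_apply, Complex.mul_re, Complex.sub_re, Complex.sub_im,
                Complex.mul_im, Complex.conj_re, Complex.conj_im]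
              norm_num
              ring
            have h0 : 0 ≤ ‖UU u w‖ ^ 2 := by positivity
            rw [e1]
            nlinarith
          exact abs_le_of_sq_le_sq' h5 (by positivity) |>.2
        have h6 : ‖(2 : ℂ)‖ = 2 := by norm_num
        rw [h6]
        calc ‖UU u w‖ * ‖2 * AA u w - UU u w‖ ≤ ‖UU u w‖ * (2 * ‖AA u w‖) := by gcongr
          _ = 2 * (‖UU u w‖ * ‖AA u w‖) := by ring) (z := z) (by rw [hcl]; simpa using hz)
    have hpos : 0 < ‖2 * WW E u z‖ := norm_pos_iff.2 (mul_ne_zero two_ne_zero (hW0 z hz))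
    rw [norm_div, div_le_one hpos] at this
    exact this
  have hline : ∀ θ : ℝ, ‖exp ((θ : ℂ) * I)‖ = 1 := fun θ => Complex.norm_exp_ofReal_mul_I θ
  refine ⟨⟨hE, fun ξ hξ => (dPhi ξ hξ).differentiableAt, fun ξ hξ => (dhh ξ hξ).differentiableAt,
    ?_, ?_, ?_, ?_⟩, ?_⟩
  · intro ξ hξ
    rw [(dPhi ξ hξ).deriv]
    have := hW _ (hexp ξ hξ)
    simp only [mul_re, re_ofNat, im_ofNat, zero_mul, sub_zero]
    linarith
  · intro ξ hξ
    rw [(dPhi ξ hξ).deriv, (dhh ξ hξ).deriv]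
    exact hle _ (hexp ξ hξ)
  · intro θ
    obtain ⟨h1, _, _⟩ := circ _ (hline θ)
    have h2 := congrArg Complex.re h1
    simp only [ofReal_re, add_re, conj_re] at h2
    unfold hh Phi
    rw [norm_mul, hline, norm_pow, one_mul, h2]
    simp
    ring
  · intro θ
    unfold hh
    rw [norm_mul, hline, one_mul, norm_pow]
    have := norm_pos_iff.2 (hU0 _ (hline θ))
    positivity
  · refine ⟨(C * (1 - r)⁻¹) ^ 2, fun ξ hξ => ?_⟩
    unfold hh
    rw [norm_mul, norm_pow]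
    have h1 := hexp ξ hξ
    have h2 : ‖UU u (exp ξ)‖ ≤ C * (1 - r)⁻¹ := by
      unfold UU
      have hg : HasSum (fun k : ℕ => C * r ^ k) (C * (1 - r)⁻¹) :=
        (hasSum_geometric_of_lt_one hr0.le hr1).mul_left _
      refine tsum_of_norm_bounded hg fun k => ?_
      rw [norm_mul, norm_pow]
      calc ‖u k‖ * ‖exp ξ‖ ^ k ≤ (C * r ^ k) * 1 := by
            gcongr
            · exact hd k
            · exact pow_le_one₀ (norm_nonneg _) h1
        _ = C * r ^ k := by ring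
    calc ‖exp ξ‖ * ‖UU u (exp ξ)‖ ^ 2 ≤ 1 * (C * (1 - r)⁻¹) ^ 2 := by gcongr
      _ = _ := by ring

end Pool.Agent.Helper51.DZ
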